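import Pool.Agent.H564R3.MR.Main
import Pool.Agent.H564R3.MR.Tseitin
import Pool.Agent.H564R3.MR.Num
import Pool.Agent.H564R3.MR.Proj

/-! The lower bound for monotone programs (as a lemma). -/

set_option autoImplicit false

namespace Pool.Agent.H564R3.MR

open Pool.Agent.H564R3.PW (Pos pairs Arc var)

theorem decides_pos {k n m : ℕ} (hm : 1 ≤ m) {ρ : Type} [DecidableEq ρ]
    (p : List (Instr (Arc k n m) ρ)) (o : ρ) (ho : Decides p o) : 1 ≤ p.length := by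
  rcases p with _ | ⟨a, l⟩
  · have h1 := (ho (fun _ => true)).1 ⟨fun _ => ⟨0, hm⟩, fun _ _ => rfl⟩
    simp [exec] at h1
  · simp

/-- the case `1 ≤ g` -/
theorem lower (k g : ℕ) (hk : 1 ≤ k) (hg : 1 ≤ g) : ∃ n₀ m₀ : ℕ, ∀ n ≥ n₀, ∀ m ≥ m₀,
    ∀ (ρ : Type) [Fintype ρ] [DecidableEq ρ] (p : List (Instr (Arc k n m) ρ)) (o : ρ),
      IsMono p → Decides p o → p.length ≤ m ^ g → m ^ (k * g) ≤ m * Fintype.card ρ ^ g := by
  set r := g * (2 * g + 1) with hr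
  have hr1 : 1 ≤ r := by
    have : 0 < g * (2 * g + 1) := by positivity
    omega
  set n₀ := 5 * r * 4096 ^ r + 2 with hn₀
  obtain ⟨Q, _, _, C, hC⟩ := tseitin k n₀ hk (by omega)
  obtain ⟨m₁, hm₁⟩ := num_real k g (k * n₀) (Fintype.card Q) hg
  refine ⟨n₀, m₁ + 1, fun n hn m hm ρ _ _ p o hp ho hT => ?_⟩
  obtain ⟨p', hp', ho', hl⟩ := proj hn (by omega) p hp o ho
  refine hm₁ m (by omega) (Fintype.card ρ) p.length (decides_pos (by omega) p o ho) hT ?_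
  intro M d hM hTM hd hd'
  refine main_real C hC hk (by omega) p' hp' o ho' M d r hM (by rw [hl]; exact hTM) hd hr1
    (by rw [hl]; exact hd') ?_
  refine le_trans ?_ (Pool.Agent.H564R3.PW.card_pairs k n₀)
  have h1 : 5 * r * 4096 ^ r ≤ n₀ - 1 := by omega
  have h3 : 4 * k ^ 2 * r + 1 ≤ k ^ 2 * (5 * r) := by
    have h4 : 1 ≤ k ^ 2 * r := Nat.mul_pos (Nat.pow_pos (by omega)) (by omega)
    nlinarith
  calc (4 * k ^ 2 * r + 1) * 4096 ^ r ≤ k ^ 2 * (5 * r) * 4096 ^ r := Nat.mul_le_mul_right _ h3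
    _ = k ^ 2 * (5 * r * 4096 ^ r) := by ring
    _ ≤ k ^ 2 * (n₀ - 1) := Nat.mul_le_mul_left _ h1

theorem card_arc (k n m : ℕ) : Fintype.card (Arc k n m) = (k * n * m) * (k * n * m) := by
  simp [Arc, Pos, Fintype.card_prod]

end Pool.Agent.H564R3.MR
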